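import Pool.Agent.H.MP_f60174_an.Data

set_option autoImplicit false

namespace Pool.Agent.Results.MP_f60174_an.Counter

open MeasureTheory Pool.Agent.H.MP_f60174_an
open scoped ContDiff

/-- derivative in the first variable -/
noncomputable def dx (w : ℝ × ℝ → ℝ) (p : ℝ × ℝ) : ℝ := deriv (fun t => w (t, p.2)) p.1

/-- derivative in the second variable -/
noncomputable def dy (w : ℝ × ℝ → ℝ) (p : ℝ × ℝ) : ℝ := deriv (fun t => w (p.1, t)) p.2

/-- the divergence form operator with matrix (a, b; b, e) and potential c, applied to w -/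
noncomputable def op (a b e c w : ℝ × ℝ → ℝ) (p : ℝ × ℝ) : ℝ :=
  -(dx (fun q => a q * dx w q + b q * dy w q) p + dy (fun q => b q * dx w q + e q * dy w q) p) +
    c p * w p

/-- squared distance to the origin -/
def r2 (p : ℝ × ℝ) : ℝ := p.1 ^ 2 + p.2 ^ 2

/-- smooth near every point of the closed unit disc -/
def Sm (f : ℝ × ℝ → ℝ) : Prop := ∀ p, r2 p ≤ 1 → ContDiffAt ℝ ∞ f p

/-- smooth coefficients, uniformly elliptic, strictly positive with Dirichlet condition -/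
def Adm (a b e c : ℝ × ℝ → ℝ) : Prop :=
  Sm a ∧ Sm b ∧ Sm e ∧ Sm c ∧
  (∃ l : ℝ, 0 < l ∧ ∀ p, r2 p ≤ 1 → ∀ s t : ℝ,
    l * (s ^ 2 + t ^ 2) ≤ a p * s ^ 2 + 2 * b p * s * t + e p * t ^ 2) ∧
  ∃ γ : ℝ, 0 < γ ∧ (∀ p, r2 p ≤ 1 → γ ≤ c p) ∧
    ∀ w : ℝ × ℝ → ℝ, ContDiff ℝ 2 w → (∀ p, r2 p = 1 → w p = 0) →
      IntegrableOn (fun p => op a b e c w p * w p) {p | r2 p < 1} ∧
      γ * ∫ p in {p | r2 p < 1}, w p ^ 2 ≤ ∫ p in {p | r2 p < 1}, op a b e c w p * w p

theorem dx_eq {w : ℝ × ℝ → ℝ} (hw : Differentiable ℝ w) :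
    dx w = fun p => fderiv ℝ w p (1, 0) := funext fun p => (slice_dx hw p.1 p.2).deriv

theorem dy_eq {w : ℝ × ℝ → ℝ} (hw : Differentiable ℝ w) :
    dy w = fun p => fderiv ℝ w p (0, 1) := funext fun p => (slice_dy hw p.1 p.2).deriv

theorem adm_of {a b e c : ℝ × ℝ → ℝ} (ha : ContDiff ℝ ∞ a) (hb : ContDiff ℝ ∞ b)
    (he : ContDiff ℝ ∞ e) (hc : Sm c)
    (h1 : ∀ p, r2 p ≤ 1 → ∀ s t : ℝ, s ^ 2 + t ^ 2 ≤ a p * s ^ 2 + 2 * b p * s * t + e p * t ^ 2)
    {γ : ℝ} (hγ : 0 < γ) (h2 : ∀ p, r2 p ≤ 1 → γ ≤ c p) : Adm a b e c := by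
  refine ⟨fun _ _ => ha.contDiffAt, fun _ _ => hb.contDiffAt, fun _ _ => he.contDiffAt, hc,
    ⟨1, one_pos, by simpa using h1⟩, γ, hγ, h2, fun w hw h0 => ?_⟩
  have hd : Differentiable ℝ w := hw.differentiable (by norm_num)
  have hf : ContDiff ℝ 1 (fderiv ℝ w) := hw.fderiv_right (by norm_num)
  have hx : ContDiff ℝ 1 (dx w) := by rw [dx_eq hd]; fun_prop
  have hy : ContDiff ℝ 1 (dy w) := by rw [dy_eq hd]; fun_prop
  have ha1 : ContDiff ℝ 1 a := ha.of_le (by norm_num)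
  have hb1 : ContDiff ℝ 1 b := hb.of_le (by norm_num)
  have he1 : ContDiff ℝ 1 e := he.of_le (by norm_num)
  obtain ⟨G, hG⟩ : ∃ G, G = fun q => a q * dx w q + b q * dy w q := ⟨_, rfl⟩
  obtain ⟨K, hK⟩ : ∃ K, K = fun q => b q * dx w q + e q * dy w q := ⟨_, rfl⟩
  have hG1 : ContDiff ℝ 1 G := by rw [hG]; fun_prop
  have hK1 : ContDiff ℝ 1 K := by rw [hK]; fun_prop
  have hGd := hG1.differentiable one_ne_zero
  have hKd := hK1.differentiable one_ne_zero
  have hGc : Continuous (dx G) := by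
    have := hG1.continuous_fderiv one_ne_zero
    rw [dx_eq hGd]; fun_prop
  have hKc : Continuous (dy K) := by
    have := hK1.continuous_fderiv one_ne_zero
    rw [dy_eq hKd]; fun_prop
  have cw := hw.continuous
  have cx := hx.continuous
  have cy := hy.continuous
  have cG := hG1.continuous
  have cK := hK1.continuous
  have i1 := int_dx (F := fun p => w p * G p) (F' := fun p => dx w p * G p + w p * dx G p)
    (fun x y => by
      rw [dx_eq hd, dx_eq hGd]
      exact (slice_dx hd x y).fun_mul (slice_dx hGd x y)) (by fun_prop)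
    fun p hp => by simp [h0 p hp]
  have i2 := int_dy (F := fun p => w p * K p) (F' := fun p => dy w p * K p + w p * dy K p)
    (fun x y => by
      rw [dy_eq hd, dy_eq hKd]
      exact (slice_dy hd x y).fun_mul (slice_dy hKd x y)) (by fun_prop)
    fun p hp => by simp [h0 p hp]
  have cc : ContinuousOn c {p : ℝ × ℝ | p.1 ^ 2 + p.2 ^ 2 ≤ 1} :=
    fun p hp => (hc p hp).continuousAt.continuousWithinAt
  have j0 := integ (f := fun p => op a b e c w p * w p) (by
    simp only [op, ← hG, ← hK]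
    fun_prop)
  have j1 := integ (f := fun p => dx w p * G p + w p * dx G p) (by fun_prop)
  have j2 := integ (f := fun p => dy w p * K p + w p * dy K p) (by fun_prop)
  have j3 := integ (f := fun p => γ * w p ^ 2) (by fun_prop)
  refine ⟨j0, ?_⟩
  have := setIntegral_mono_on j3 ((j0.add j1).add j2) disc_meas fun p hp => by
    have k1 := h1 p (le_of_lt hp) (dx w p) (dy w p)
    have k2 := mul_le_mul_of_nonneg_right (h2 p (le_of_lt hp)) (sq_nonneg (w p))
    have k3 := congrFun hG p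
    have k4 := congrFun hK p
    simp only [op, ← hG, ← hK, Pi.add_apply]
    rw [k3, k4]
    nlinarith [sq_nonneg (dx w p), sq_nonneg (dy w p)]
  rw [integral_add' (j0.add j1) j2, integral_add' j0 j1, i1, i2, integral_const_mul] at this
  simpa [r2] using this

/-- quarter turn -/
def S (p : ℝ × ℝ) : ℝ × ℝ := (p.2, -p.1)

theorem dx_S (f : ℝ × ℝ → ℝ) (p : ℝ × ℝ) : dx (fun q => f (S q)) p = -dy f (S p) :=
  deriv_comp_neg (fun t => f (p.2, t)) p.1

theorem dy_S (f : ℝ × ℝ → ℝ) (p : ℝ × ℝ) : dy (fun q => f (S q)) p = dx f (S p) := rfl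

theorem dx_neg (f : ℝ × ℝ → ℝ) (p : ℝ × ℝ) : dx (fun q => -f q) p = -dx f p := deriv.fun_neg

theorem op_S (a b e c w : ℝ × ℝ → ℝ) (p : ℝ × ℝ) :
    op (fun q => e (S q)) (fun q => -b (S q)) (fun q => a (S q)) (fun q => c (S q))
      (fun q => w (S q)) p = op a b e c w (S p) := by
  have e1 : (fun q => e (S q) * dx (fun q => w (S q)) q + -b (S q) * dy (fun q => w (S q)) q) =
      fun q => -(fun q => b q * dx w q + e q * dy w q) (S q) := by
    ext q; rw [dx_S, dy_S]; ring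
  have e2 : (fun q => -b (S q) * dx (fun q => w (S q)) q + a (S q) * dy (fun q => w (S q)) q) =
      fun q => (fun q => a q * dx w q + b q * dy w q) (S q) := by
    ext q; rw [dx_S, dy_S]; ring
  unfold op
  rw [e1, e2, dx_neg, dx_S (fun q => b q * dx w q + e q * dy w q),
    dy_S (fun q => a q * dx w q + b q * dy w q)]
  ring

theorem r2_S (p : ℝ × ℝ) : r2 (S p) = r2 p := by simp [r2, S, add_comm]

theorem S_smooth : ContDiff ℝ ∞ S := by unfold S; fun_prop

theorem Sm.rot {f : ℝ × ℝ → ℝ} (h : Sm f) : Sm fun q => f (S q) := fun p hp =>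
  (h (S p) (by rwa [r2_S])).comp p S_smooth.contDiffAt

/-- positive weight -/
def W (p : ℝ × ℝ) : ℝ := 2 - 2 * p.1 * p.2 - p.1 ^ 2 + 2 * p.2 ^ 2

theorem W_bd {p : ℝ × ℝ} (h : r2 p ≤ 1) : 0 < W p ∧ W p ≤ 5 := by
  unfold r2 at h
  unfold W
  constructor <;> nlinarith [sq_nonneg (p.1 - 2 * p.2), sq_nonneg (p.1 + p.2), sq_nonneg p.2]

theorem W_smooth : ContDiff ℝ ∞ W := by unfold W; fun_prop

theorem u_eq (p : ℝ × ℝ) : ev lu p = (1 - r2 p) * p.1 * W p := by
  simp only [ev, lu, List.map, List.sum_cons, List.sum_nil, r2, W]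
  ring

theorem eqn (p : ℝ × ℝ) (c : ℝ × ℝ → ℝ) : op (ev lA) (ev lB) (ev lE) c (ev lu) p =
    -((1 - r2 p) * (ev la p * p.2 + ev lc p * p.1)) + c p * ev lu p := by
  have ux : dx (ev lu) = ev lux := funext fun q => (ev_dx lu q.1 q.2).deriv.trans (by
    simp only [ev, lu, lux, List.map, List.sum_cons, List.sum_nil]
    norm_num
    ring)
  have uy : dy (ev lu) = ev luy := funext fun q => (ev_dy lu q.1 q.2).deriv.trans (by
    simp only [ev, lu, luy, List.map, List.sum_cons, List.sum_nil]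
    norm_num
    ring)
  have e1 : (fun q => ev lA q * ev lux q + ev lB q * ev luy q) = ev lJ := by
    ext q
    simp only [ev, lA, lB, lux, luy, lJ, List.map, List.sum_cons, List.sum_nil]
    ring
  have e2 : (fun q => ev lB q * ev lux q + ev lE q * ev luy q) = ev lK := by
    ext q
    simp only [ev, lE, lB, lux, luy, lK, List.map, List.sum_cons, List.sum_nil]
    ring
  unfold op
  rw [ux, uy, e1, e2, dx, dy, (ev_dx lJ p.1 p.2).deriv, (ev_dy lK p.1 p.2).deriv]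
  simp only [ev, la, lc, lJ, lK, List.map, List.sum_cons, List.sum_nil, r2]
  norm_num
  ring

theorem result : ∃ a₁ b₁ e₁ c₁ a₂ b₂ e₂ c₂ α β u v : ℝ × ℝ → ℝ,
    Adm a₁ b₁ e₁ c₁ ∧ Adm a₂ b₂ e₂ c₂ ∧ Sm α ∧ Sm β ∧ (∀ p, r2 p ≤ 1 → 0 < α p ∧ 0 < β p) ∧
    ContDiff ℝ ∞ u ∧ ContDiff ℝ ∞ v ∧
    (∀ p, r2 p < 1 → op a₁ b₁ e₁ c₁ u p + α p * v p = 0 ∧
      -β p * u p + op a₂ b₂ e₂ c₂ v p = 0) ∧
    (∀ p, r2 p = 1 → u p = 0 ∧ v p = 0) ∧ ∃ p, r2 p < 1 ∧ u p ≠ 0 := by
  have hc : Sm fun q => ev lc q / W q := fun p hp =>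
    (ev_smooth lc).contDiffAt.div W_smooth.contDiffAt (W_bd hp).1.ne'
  have hc' : ∀ p, r2 p ≤ 1 → 1 / 5 ≤ ev lc p / W p := fun p hp => by
    have := pos_c p.1 p.2 hp
    rw [le_div_iff₀ (W_bd hp).1]
    linarith [(W_bd hp).2]
  have hW : ∀ p, r2 p ≤ 1 → 0 < W (S p) := fun p hp => (W_bd (by rwa [r2_S])).1
  have ha : Sm fun q => ev la q / W (S q) := fun p hp =>
    (ev_smooth la).contDiffAt.div (W_smooth.comp S_smooth).contDiffAt (hW p hp).ne'
  have ha' : ∀ p, r2 p ≤ 1 → 0 < ev la p / W (S p) := fun p hp =>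
    div_pos (by linarith [pos_a p.1 p.2 hp]) (hW p hp)
  have key : ∀ p, r2 p < 1 → op (ev lA) (ev lB) (ev lE) (fun q => ev lc q / W q) (ev lu) p +
      ev la p / W (S p) * ev lu (S p) = 0 := fun p hp => by
    have h1 := (W_bd hp.le).1.ne'
    have h2 := (hW p hp.le).ne'
    rw [eqn, u_eq, u_eq, r2_S, show (S p).1 = p.2 from rfl]
    field_simp
    ring
  refine ⟨ev lA, ev lB, ev lE, fun q => ev lc q / W q, fun q => ev lE (S q), fun q => -ev lB (S q),
    fun q => ev lA (S q), fun q => ev lc (S q) / W (S q), fun q => ev la q / W (S q),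
    fun q => ev la (S q) / W (S (S q)), ev lu, fun q => ev lu (S q),
    adm_of (ev_smooth _) (ev_smooth _) (ev_smooth _) hc (fun p hp s t => ell p.1 p.2 s t hp)
      (by norm_num) hc',
    adm_of ((ev_smooth _).comp S_smooth) ((ev_smooth _).comp S_smooth).neg
      ((ev_smooth _).comp S_smooth) hc.rot (fun p hp s t => ?_) (γ := 1 / 5) (by norm_num)
      fun p hp => hc' _ (by rwa [r2_S]),
    ha, ha.rot, fun p hp => ⟨ha' p hp, ha' _ (by rwa [r2_S])⟩, ev_smooth _,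
    (ev_smooth _).comp S_smooth, fun p hp => ⟨key p hp, ?_⟩, fun p hp => ?_,
    (1 / 2, 0), by norm_num [r2], by norm_num [u_eq, r2, W]⟩
  · have := ell (S p).1 (S p).2 t (-s) (show r2 (S p) ≤ 1 by rwa [r2_S])
    simp only [Prod.mk.eta] at this
    linarith
  · have := key (S p) (by rwa [r2_S])
    rw [op_S (ev lA) (ev lB) (ev lE) (fun q => ev lc q / W q) (ev lu)]
    have e : ev lu (S (S p)) = -ev lu p := by
      rw [u_eq, u_eq, r2_S, r2_S]
      simp only [S, W]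
      ring
    rw [e] at this
    linarith
  · simp [u_eq, r2_S, hp]

end Pool.Agent.Results.MP_f60174_an.Counter
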